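import Pool.Agent.Helper31.OWN.Pyjama

set_option autoImplicit false

/-!
# MP_5b7aa2_co : the pyjama problem with an explicit exponent

There is a constant `K` such that for every `0 < ε ≤ 1` at most `K ε ^ (-102)` rotated copies
`e^{iθ} {w : |Re w - k| < ε for some integer k}` of the open pyjama set cover the plane.
-/

namespace Pool.Agent.Results.MP_5b7aa2_co.ExplicitExponent

open Complex

/-- The plane is covered by at most `K / ε ^ 102` rotated copies of the open pyjama set of
half-width `ε`, for every `0 < ε ≤ 1`, with a constant `K` that does not depend on `ε`. -/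
theorem result : ∃ K : ℝ, ∀ ε : ℝ, 0 < ε → ε ≤ 1 →
    ∃ Θ : Finset ℝ, (Θ.card : ℝ) ≤ K / ε ^ 102 ∧ ∀ z : ℂ, ∃ θ ∈ Θ, ∃ w : ℂ,
      z = Complex.exp (θ * I) * w ∧ ∃ k : ℤ, |w.re - k| < ε :=
  Pyj.explicit_bound

end Pool.Agent.Results.MP_5b7aa2_co.ExplicitExponent
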